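import Pool.Agent.K1H92.ZO.Final
import Pool.Agent.K1H92.ZO.Circ
import Pool.Agent.K1H48.ZO.Rot

/-!
# Zero-one laws for the spectral gap of pairs of rotations

Let `G = SO(3)` with its Haar probability measure `μ`, let `A` be the set of the pairs `(a, b)` for
which `S = {a, b, a⁻¹, b⁻¹}` has a spectral gap on `L²_0(G)`, and `D` the set of the pairs which
generate a dense subgroup.

* `A` has measure zero or one. (Fisher proved this for `m`-tuples, `m ≥ 3`, by the ergodicity of
  `Out(F_m)`. `Out(F_2)` does not act ergodically, and the question is about pairs.)
* `D` is comeagre and has full measure.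
* If `A` is not meagre then there is a dense open set `O` of full measure with `D ⊆ O ⊆ A`.
* So `A` is comeagre if and only if all finite symmetric sets which generate a dense subgroup have
  a spectral gap; and if `A` is comeagre then it has full measure.

The proof of the zero-one law. If `a'` and `b'` are in the group generated by `a` and `b` and
`(a', b')` has a gap, then `(a, b)` has a gap. So `A` is backwards invariant under all
endomorphisms of the free group, not only under automorphisms. For such a set `O`:

* `(a², b) ∈ O` implies `(a, b) ∈ O`. On the rotations `a` with a given axis, a circle, the map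
  `a ↦ a²` is the doubling map, which is ergodic. So for almost all `b` and axes, `O` contains almost
  all or almost none of the rotations `a` with this axis. The same holds for `b`. Hence, up to null
  sets, `O` is the set of the pairs whose axes are in a set `D` of pairs of axes.
* `(a, b) ∈ O` if and only if `(a b, b) ∈ O`. If `a` and `b` run through the rotations with two given
  axes then the axis of `a b` runs through all axes, in a nonsingular way. So `D` does not depend on
  the axis of `a`, and by symmetry it does not depend on the axis of `b`.

We use quaternions `x + v` as coordinates: the rotations with the axis `v` are those of the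
quaternions `x + v`, `x` real, squaring is the map `x ↦ (x² - |v|²) / (2 x)` on them, that is
`|v| cot θ ↦ |v| cot 2θ`, and the axis of `(x + v) (y + w)` is `x w + y v + v × w`.

For the other parts: the set of the pairs for which a given constant is a gap is closed, so if `A` is
not meagre then there is an open set `U` of pairs with a uniform gap. The set `O` of the pairs from
which one can reach `U` by words is open, contained in `A`, contains all generating pairs, and has
measure one by the zero-one law. Also the statement about `D` is deduced from the zero-one law for
open sets.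
-/

set_option autoImplicit false

open MeasureTheory Set

namespace Pool.Agent.Results.MP_2915c1_al.ZeroOneLaws

open Pool.Agent.K1H92.ZO

/-- **Zero-one laws for the spectral gap of pairs of rotations.** `gapPairs μ` is the set of the
pairs `(a, b)` of rotations for which `{a, b, a⁻¹, b⁻¹}` has a spectral gap, `genPairs` the set of
the pairs which generate a dense subgroup of `SO(3)`. `BI O` means that `O` contains `(a, b)`
whenever it contains a pair of elements of the group generated by `a` and `b`. -/
theorem result [MeasurableSpace SO3] [BorelSpace SO3] (μ : Measure SO3) [μ.IsHaarMeasure]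
    [IsProbabilityMeasure μ] :
    (∀ O : Set (SO3 × SO3), MeasurableSet O → BI O →
      (μ.prod μ) O = 0 ∨ (μ.prod μ) Oᶜ = 0) ∧
    (MeasurableSet (gapPairs μ) ∧
      ((μ.prod μ) (gapPairs μ) = 0 ∨ (μ.prod μ) (gapPairs μ)ᶜ = 0)) ∧
    (genPairs ∈ residual (SO3 × SO3) ∧ (μ.prod μ) genPairsᶜ = 0) ∧
    (¬ IsMeagre (gapPairs μ) → ∃ O : Set (SO3 × SO3), IsOpen O ∧ Dense O ∧
      (μ.prod μ) Oᶜ = 0 ∧ genPairs ⊆ O ∧ O ⊆ gapPairs μ) ∧
    (gapPairs μ ∈ residual (SO3 × SO3) ↔ ∀ S : Finset SO3, (∀ s ∈ S, s⁻¹ ∈ S) →
      Dense (Subgroup.closure (S : Set SO3) : Set SO3) → HasGap μ S) ∧
    (gapPairs μ ∈ residual (SO3 × SO3) → (μ.prod μ) (gapPairs μ)ᶜ = 0) :=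
  main Pool.Agent.K1H92.ZO.circ Pool.Agent.K1H48.ZO.rot μ

end Pool.Agent.Results.MP_2915c1_al.ZeroOneLaws
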